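import Pool.Agent.H31.MP.Basic

/-!
The error term of the sieve for the integers.
-/

set_option autoImplicit false

open Finset Real ArithmeticFunction
open scoped Nat

namespace Pool.Agent.H78.MTP

open Pool.Agent.H31.MP
open Pool.Agent.H30.BV (NX wx WX Sf As Er Sad qj PZ lv nl)

/-- powers of the logarithm against powers -/
theorem logpow (M : ℝ) (k : ℕ) (c : ℝ) (hc : 0 < c) : ∃ X₀ : ℝ, ∀ X : ℝ, X₀ ≤ X →
    M * Real.log X ^ k ≤ X ^ c := by
  have h := isLittleO_log_rpow_rpow_atTop (k : ℝ) hc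
  have h1 := h.def (c := (|M| + 1)⁻¹) (by positivity)
  rw [Filter.eventually_atTop] at h1
  obtain ⟨X₀, hX⟩ := h1
  refine ⟨max X₀ 1, fun X hX0 => ?_⟩
  have h2 := hX X (le_trans (le_max_left _ _) hX0)
  have hX1 : 1 ≤ X := le_trans (le_max_right _ _) hX0
  have hl : 0 ≤ Real.log X := Real.log_nonneg hX1
  rw [Real.rpow_natCast, Real.norm_of_nonneg (pow_nonneg hl k),
    Real.norm_of_nonneg (Real.rpow_nonneg (by linarith) c)] at h2
  have hM : 0 < |M| + 1 := by positivity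
  rw [inv_mul_eq_div, le_div_iff₀ hM] at h2
  calc M * Real.log X ^ k ≤ (|M| + 1) * Real.log X ^ k :=
        mul_le_mul_of_nonneg_right ((le_abs_self M).trans (by linarith)) (pow_nonneg hl k)
    _ = Real.log X ^ k * (|M| + 1) := mul_comm _ _
    _ ≤ X ^ c := h2

theorem nu_le {K : ℕ} (h : Fin K → ℕ) (p : ℕ) : nu h p ≤ K := by
  classical
  unfold nu
  have h1 : ((range p).filter fun a => ∃ i, p ∣ a + h i) ⊆
      (univ : Finset (Fin K)).biUnion fun i => (range p).filter fun a => p ∣ a + h i := by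
    intro a ha
    obtain ⟨ha1, i, hi⟩ := mem_filter.1 ha
    exact mem_biUnion.2 ⟨i, mem_univ _, mem_filter.2 ⟨ha1, hi⟩⟩
  refine (card_le_card h1).trans (card_biUnion_le.trans ?_)
  have h2 : ∀ i ∈ (univ : Finset (Fin K)), ((range p).filter fun a => p ∣ a + h i).card ≤ 1 := by
    intro i _
    refine card_le_one.2 fun a ha b hb => ?_
    obtain ⟨ha1, ha2⟩ := mem_filter.1 ha
    obtain ⟨hb1, hb2⟩ := mem_filter.1 hb
    have h3 : a + h i ≡ b + h i [MOD p] :=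
      ((Nat.modEq_zero_iff_dvd).2 ha2).trans ((Nat.modEq_zero_iff_dvd).2 hb2).symm
    exact Nat.ModEq.eq_of_lt_of_lt (Nat.ModEq.add_right_cancel' _ h3) (mem_range.1 ha1)
      (mem_range.1 hb1)
  refine (sum_le_card_nsmul _ _ _ h2).trans ?_
  simp

theorem ie_key (hINT : T_INT) (hLE : T_LE) (hNC : T_NC) (K y₀ : ℕ) (z X Y B : ℝ)
    (h : Fin K → ℕ) (l : (Fin K → ℕ) → ℝ) (hh : Function.Injective h) (hhz : ∀ i, (h i : ℝ) ≤ z)
    (hyz : (y₀ : ℝ) ≤ z)
    (hB : |∑ d ∈ Bx K z Y, ∑ e ∈ Bx K z Y, (open Classical in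
      if Pco d e then l d * l e / ∏ i, (Nat.lcm (d i) (e i) : ℝ) else 0) - QF z Y l| ≤ B)
    (s : Finset ℕ) (hs : ∀ p ∈ s, p.Prime ∧ y₀ < p ∧ (p : ℝ) ≤ z) :
    |As (Om X y₀) (fun n => 1 * Lam z Y l h n ^ 2) (dvh h) s -
      (NX X / primorial y₀ * QF z Y l) * ∏ p ∈ s, (nu h p : ℝ) / p| ≤
    (∑ d ∈ Bx K z Y, ∑ e ∈ Bx K z Y, (open Classical in
      if Pco d e then |l d| * |l e| * (((K : ℝ) + 1) ^ s.card * 1) else 0)) +
      (NX X : ℝ) * B * ∏ p ∈ s, (nu h p : ℝ) / p := by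
  classical
  set W := primorial y₀ with hW
  have hW1 : 1 ≤ W := primorial_pos y₀
  have hWr : (1 : ℝ) ≤ W := by exact_mod_cast hW1
  set N := NX X with hN
  set Gs : ℝ := ∏ p ∈ s, (nu h p : ℝ) / p with hGs
  have hG0 : 0 ≤ Gs := Finset.prod_nonneg fun p _ => by positivity
  have hAs : As (Om X y₀) (fun n => 1 * Lam z Y l h n ^ 2) (dvh h) s =
      ∑ d ∈ Bx K z Y, ∑ e ∈ Bx K z Y, l d * l e *
        (((Icc 1 N).filter (fun n => n ≡ 1 [MOD W] ∧ (∀ p ∈ s, dvh h p n) ∧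
          ∀ i, Nat.lcm (d i) (e i) ∣ n + h i)).card : ℝ) := by
    have h1 := hLE K z Y l h (Om X y₀) (fun _ => 1) s
    rw [show (fun n => (1 : ℝ) * Lam z Y l h n ^ 2) =
      (fun n => (fun _ : ℕ => (1 : ℝ)) n * Lam z Y l h n ^ 2) from rfl, h1]
    refine Finset.sum_congr rfl fun d _ => Finset.sum_congr rfl fun e _ => ?_
    congr 1
    rw [Finset.sum_const, nsmul_eq_mul, mul_one]
    unfold Om
    rw [Finset.filter_filter]
  have hterm : ∀ d ∈ Bx K z Y, ∀ e ∈ Bx K z Y,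
      |l d * l e * (((Icc 1 N).filter (fun n => n ≡ 1 [MOD W] ∧ (∀ p ∈ s, dvh h p n) ∧
          ∀ i, Nat.lcm (d i) (e i) ∣ n + h i)).card : ℝ) -
        (N / W * Gs) * (if Pco d e then l d * l e / ∏ i, (Nat.lcm (d i) (e i) : ℝ) else 0)| ≤
      if Pco d e then |l d| * |l e| * (((K : ℝ) + 1) ^ s.card * 1) else 0 := by
    intro d hd e he
    obtain ⟨hc1, hc2, hc3⟩ := hNC K z Y h d e hh hhz hd he
    by_cases hP : Pco d e
    · rw [if_pos hP, if_pos hP]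
      have h1 := hINT K h W N s (fun i => Nat.lcm (d i) (e i)) hW1
        (fun p hp => ⟨(hs p hp).1, fun hd' => by
          have := ((hs p hp).1.dvd_primorial_iff).1 hd'
          have := (hs p hp).2.1
          omega⟩)
        (fun i => ⟨(hc3 i).1, by
          refine Nat.Coprime.symm (Nat.coprime_of_dvd fun q hq hqW hqm => ?_)
          have h2 : (q : ℝ) ≤ y₀ := by exact_mod_cast (hq.dvd_primorial_iff).1 hqW
          have h3 := (hc3 i).2.2 q hq hqm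
          linarith, fun p hp hpm => by
          have h3 := (hc3 i).2.2 p (hs p hp).1 hpm
          linarith [(hs p hp).2.2]⟩)
        (fun i j hij => hP i j hij)
      have hm0 : (0 : ℝ) < ∏ i, (Nat.lcm (d i) (e i) : ℝ) :=
        Finset.prod_pos fun i _ => by
          have := (hc3 i).1
          positivity
      have h4 : l d * l e * (((Icc 1 N).filter (fun n => n ≡ 1 [MOD W] ∧
          (∀ p ∈ s, dvh h p n) ∧ ∀ i, Nat.lcm (d i) (e i) ∣ n + h i)).card : ℝ) -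
          (N / W * Gs) * (l d * l e / ∏ i, (Nat.lcm (d i) (e i) : ℝ)) =
          l d * l e * ((((Icc 1 N).filter (fun n => n ≡ 1 [MOD W] ∧
          (∀ p ∈ s, dvh h p n) ∧ ∀ i, Nat.lcm (d i) (e i) ∣ n + h i)).card : ℝ) -
          N / (W * ∏ i, (Nat.lcm (d i) (e i) : ℝ)) * Gs) := by
        have hW0 : (W : ℝ) ≠ 0 := by linarith
        field_simp
      rw [h4, abs_mul, abs_mul, mul_one]
      refine mul_le_mul_of_nonneg_left ?_ (by positivity)
      refine h1.trans ?_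
      exact pow_le_pow_left₀ (Nat.cast_nonneg _) (by linarith) _
    · rw [if_neg hP, if_neg hP, mul_zero, sub_zero]
      have h1 : ((Icc 1 N).filter (fun n => n ≡ 1 [MOD W] ∧ (∀ p ∈ s, dvh h p n) ∧
          ∀ i, Nat.lcm (d i) (e i) ∣ n + h i)) = ∅ := by
        rw [Finset.filter_eq_empty_iff]
        rintro n _ ⟨_, _, h2⟩
        exact hP (hc2 ⟨n, h2⟩)
      rw [h1, Finset.card_empty, Nat.cast_zero, mul_zero, abs_zero]
  have hsplit : As (Om X y₀) (fun n => 1 * Lam z Y l h n ^ 2) (dvh h) s -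
      (N / W * QF z Y l) * Gs =
      (∑ d ∈ Bx K z Y, ∑ e ∈ Bx K z Y, (l d * l e *
        (((Icc 1 N).filter (fun n => n ≡ 1 [MOD W] ∧ (∀ p ∈ s, dvh h p n) ∧
          ∀ i, Nat.lcm (d i) (e i) ∣ n + h i)).card : ℝ) -
        (N / W * Gs) * (if Pco d e then l d * l e / ∏ i, (Nat.lcm (d i) (e i) : ℝ) else 0))) +
      (N / W * Gs) * (∑ d ∈ Bx K z Y, ∑ e ∈ Bx K z Y,
        (if Pco d e then l d * l e / ∏ i, (Nat.lcm (d i) (e i) : ℝ) else 0) - QF z Y l) := by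
    rw [hAs]
    simp only [Finset.sum_sub_distrib, ← Finset.mul_sum]
    ring
  rw [hsplit]
  refine (abs_add_le _ _).trans (add_le_add ?_ ?_)
  · refine (Finset.abs_sum_le_sum_abs _ _).trans (Finset.sum_le_sum fun d hd => ?_)
    refine (Finset.abs_sum_le_sum_abs _ _).trans (Finset.sum_le_sum fun e he => ?_)
    exact hterm d hd e he
  · rw [abs_mul, abs_of_nonneg (by positivity : (0 : ℝ) ≤ N / W * Gs)]
    have hNW : (N : ℝ) / W ≤ N := div_le_self (Nat.cast_nonneg _) hWr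
    have hB0 : 0 ≤ B := (abs_nonneg _).trans hB
    calc (N : ℝ) / W * Gs * |∑ d ∈ Bx K z Y, ∑ e ∈ Bx K z Y,
        (if Pco d e then l d * l e / ∏ i, (Nat.lcm (d i) (e i) : ℝ) else 0) - QF z Y l|
        ≤ (N : ℝ) / W * Gs * B := mul_le_mul_of_nonneg_left hB (by positivity)
      _ ≤ N * Gs * B := by gcongr
      _ = N * B * Gs := by ring

theorem pf_IE (hINT : T_INT) (hSQ : T_SQ) (hLE : T_LE) (hNC : T_NC) (hQC : T_QC) (hSD : T_SD)
    (hDVK : T_DVK) : T_IE := by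
  classical
  intro K b y₀ A δ C hK hy₀ hδ hδb hC
  obtain ⟨C₁, B₁, hC₁, hD⟩ := hDVK (3 * K * (K + 1))
  obtain ⟨C₂, B₂, hC₂, hS⟩ := hSD K
  obtain ⟨C', hC', hQ⟩ := hQC K δ C hδ hC
  obtain ⟨X₁, hX₁⟩ := logpow (2 * (C ^ 2 * C₁)) (B₁ + A) (1 / 4) (by norm_num)
  obtain ⟨X₂, hX₂⟩ := logpow (8 * C' * C₂ * δ ^ B₂) (B₂ + A) δ hδ
  obtain ⟨X₃, hX₃⟩ := logpow 20 1 δ hδ
  obtain ⟨X₄, hX₄⟩ := Filter.eventually_atTop.1
    ((tendsto_rpow_atTop hδ).eventually_ge_atTop ((y₀ : ℝ) + 3))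
  refine ⟨max (max X₁ X₂) (max (max X₃ X₄) 16), ?_⟩
  intro X hX Y h l hh hhX hY1 hYX hW
  have e1 : X₁ ≤ X := le_trans (le_trans (le_max_left _ _) (le_max_left _ _)) hX
  have e2 : X₂ ≤ X := le_trans (le_trans (le_max_right _ _) (le_max_left _ _)) hX
  have e3 : X₃ ≤ X := le_trans (le_trans (le_trans (le_max_left _ _) (le_max_left _ _))
    (le_max_right _ _)) hX
  have e4 : X₄ ≤ X := le_trans (le_trans (le_trans (le_max_right _ _) (le_max_left _ _))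
    (le_max_right _ _)) hX
  have e5 : (16 : ℝ) ≤ X := le_trans (le_trans (le_max_right _ _) (le_max_right _ _)) hX
  have hX0 : (0 : ℝ) < X := by linarith
  have hX1 : (1 : ℝ) ≤ X := by linarith
  set z := X ^ δ with hz
  have hz1 : (y₀ : ℝ) + 3 ≤ z := hX₄ X e4
  have hz3 : 3 ≤ z := by
    have : (0 : ℝ) ≤ y₀ := Nat.cast_nonneg _
    linarith
  have hlX : 1 ≤ Real.log X := by
    rw [Real.le_log_iff_exp_le hX0]
    exact Real.exp_one_lt_d9.le.trans (by linarith)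
  have hlz : Real.log z = δ * Real.log X := by rw [hz, Real.log_rpow hX0]
  have hhz : ∀ i, (h i : ℝ) ≤ z := fun i => (hhX i).trans (by
    have := hX₃ X e3
    rwa [pow_one] at this)
  have hYX1 : Y ≤ X := hYX.trans (by
    calc X ^ (1 / 4 : ℝ) ≤ X ^ (1 : ℝ) := Real.rpow_le_rpow_of_exponent_le hX1 (by norm_num)
      _ = X := Real.rpow_one X)
  have hB := (hQ X Y l (by linarith) hYX1 hW).1
  -- the sieving set
  set P := Pz y₀ z with hP
  have hPm : ∀ p ∈ P, p.Prime ∧ y₀ < p ∧ (p : ℝ) ≤ z := by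
    intro p hp
    rw [hP] at hp
    unfold Pz at hp
    obtain ⟨h1, h2, h3⟩ := mem_filter.1 hp
    exact ⟨h2, h3, (Nat.le_floor_iff (by linarith)).1 (mem_Icc.1 h1).2⟩
  have hPZ : P ⊆ PZ z 2 := by
    intro p hp
    obtain ⟨h1, h2, h3⟩ := hPm p hp
    unfold PZ
    exact mem_filter.2 ⟨mem_Icc.2 ⟨by omega, Nat.le_floor h3⟩, h1, by omega⟩
  have hg : ∀ p ∈ P, 0 ≤ (nu h p : ℝ) / p ∧ (nu h p : ℝ) / p ≤ K / p := by
    intro p hp
    have h1 : (0 : ℝ) < p := by exact_mod_cast (hPm p hp).1.pos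
    have h2 : (nu h p : ℝ) ≤ K := by exact_mod_cast nu_le h p
    exact ⟨by positivity, by gcongr⟩
  obtain ⟨hS1, hS2, -, -⟩ := hS z P (fun p => (nu h p : ℝ) / p) b hz3 hPZ hg
  set Sd := Sad P (lv z) (fun j => b + j) (nl z) with hSd
  have hsP : ∀ s ∈ Sd, ∀ p ∈ s, p ∈ P := by
    intro s hs p hp
    rw [hSd] at hs
    unfold Sad at hs
    exact (mem_powerset.1 (mem_filter.1 hs).1) hp
  unfold Er
  have hkey : ∀ s ∈ Sd, |As (Om X y₀) (fun n => 1 * Lam z Y l h n ^ 2) (dvh h) s -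
      (NX X / primorial y₀ * QF z Y l) * ∏ p ∈ s, (nu h p : ℝ) / p| ≤
    (∑ d ∈ Bx K z Y, ∑ e ∈ Bx K z Y,
      if Pco d e then |l d| * |l e| * (((K : ℝ) + 1) ^ s.card * 1) else 0) +
      (NX X : ℝ) * (C' * X ^ (-δ)) * ∏ p ∈ s, (nu h p : ℝ) / p := fun s hs =>
    ie_key hINT hLE hNC K y₀ z X Y (C' * X ^ (-δ)) h l hh hhz (by linarith) hB s
      (fun p hp => hPm p (hsP s hs p hp))
  refine (Finset.sum_le_sum hkey).trans ?_
  rw [Finset.sum_add_distrib, ← Finset.mul_sum]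
  -- first sum
  have hfirst := hSQ K 1 z Y (z ^ (4 * b + 6)) C l (fun _ => 1) Sd hK le_rfl hC (by linarith)
    (by positivity) hW (fun _ => zero_le_one) (fun s hs => ⟨fun p hp =>
      ⟨(hPm p (hsP s hs p hp)).1, (hPm p (hsP s hs p hp)).2.2⟩, hS1 s hs⟩)
  have hyX : z ^ (4 * b + 6) * Y ^ 2 ≤ X ^ (3 / 4 : ℝ) := by
    have h1 : z ^ (4 * b + 6) ≤ X ^ (1 / 4 : ℝ) := by
      rw [hz, ← Real.rpow_natCast, ← Real.rpow_mul hX0.le]
      refine Real.rpow_le_rpow_of_exponent_le hX1 ?_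
      push_cast
      exact hδb
    have h2 : Y ^ 2 ≤ X ^ (1 / 2 : ℝ) := by
      calc Y ^ 2 ≤ (X ^ (1 / 4 : ℝ)) ^ 2 := pow_le_pow_left₀ (by linarith) hYX 2
        _ = X ^ (1 / 2 : ℝ) := by
          rw [← Real.rpow_natCast, ← Real.rpow_mul hX0.le]
          norm_num
    calc z ^ (4 * b + 6) * Y ^ 2 ≤ X ^ (1 / 4 : ℝ) * X ^ (1 / 2 : ℝ) :=
          mul_le_mul h1 h2 (by positivity) (by positivity)
      _ = X ^ (3 / 4 : ℝ) := by
          rw [← Real.rpow_add hX0]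
          norm_num
  set M := ⌊X ^ (3 / 4 : ℝ)⌋₊ with hM
  have hM2 : 2 ≤ M := by
    rw [hM]
    refine Nat.le_floor ?_
    calc ((2 : ℕ) : ℝ) = 16 ^ (1 / 4 : ℝ) := by
          rw [show (16 : ℝ) = 2 ^ (4 : ℝ) by norm_num, ← Real.rpow_mul (by norm_num)]
          norm_num
      _ ≤ X ^ (1 / 4 : ℝ) := Real.rpow_le_rpow (by norm_num) e5 (by norm_num)
      _ ≤ X ^ (3 / 4 : ℝ) := Real.rpow_le_rpow_of_exponent_le hX1 (by norm_num)
  have hMX : (M : ℝ) ≤ X ^ (3 / 4 : ℝ) := Nat.floor_le (by positivity)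
  have hsum : ∑ q ∈ Icc 1 ⌊z ^ (4 * b + 6) * Y ^ 2⌋₊, (3 * (K : ℝ) * (K + 1)) ^ om q * 1 ≤
      X ^ (3 / 4 : ℝ) * (C₁ * Real.log X ^ B₁) := by
    calc ∑ q ∈ Icc 1 ⌊z ^ (4 * b + 6) * Y ^ 2⌋₊, (3 * (K : ℝ) * (K + 1)) ^ om q * 1
        ≤ ∑ q ∈ Icc 1 M, (3 * (K : ℝ) * (K + 1)) ^ om q * 1 := by
          refine Finset.sum_le_sum_of_subset_of_nonneg (Finset.Icc_subset_Icc_right
            (Nat.floor_le_floor hyX)) fun q _ _ => by positivity
      _ ≤ ∑ q ∈ Icc 1 M, X ^ (3 / 4 : ℝ) *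
            (((3 * K * (K + 1) : ℕ) : ℝ) ^ om q / (q.totient : ℝ)) := by
          refine Finset.sum_le_sum fun q hq => ?_
          obtain ⟨hq1, hq2⟩ := mem_Icc.1 hq
          have h1 : (0 : ℝ) < q.totient := by exact_mod_cast Nat.totient_pos.2 hq1
          have h2 : (q.totient : ℝ) ≤ X ^ (3 / 4 : ℝ) := by
            have h3 : (q.totient : ℝ) ≤ q := by exact_mod_cast Nat.totient_le q
            have h4 : (q : ℝ) ≤ M := by exact_mod_cast hq2
            linarith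
          push_cast
          rw [mul_one, ← mul_div_assoc, le_div_iff₀ h1, mul_comm]
          exact mul_le_mul_of_nonneg_right h2 (by positivity)
      _ = X ^ (3 / 4 : ℝ) * ∑ q ∈ Icc 1 M,
            (((3 * K * (K + 1) : ℕ) : ℝ) ^ om q / (q.totient : ℝ)) := by
          rw [Finset.mul_sum]
      _ ≤ X ^ (3 / 4 : ℝ) * (C₁ * Real.log X ^ B₁) := by
          refine mul_le_mul_of_nonneg_left ((hD M hM2).trans ?_) (by positivity)
          refine mul_le_mul_of_nonneg_left ?_ hC₁.le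
          have h1 : (0 : ℝ) < M := by
            have : (2 : ℝ) ≤ M := by exact_mod_cast hM2
            linarith
          refine pow_le_pow_left₀ (Real.log_nonneg (by
            have : (2 : ℝ) ≤ M := by exact_mod_cast hM2
            linarith)) (Real.log_le_log h1 (hMX.trans ?_)) _
          calc X ^ (3 / 4 : ℝ) ≤ X ^ (1 : ℝ) :=
                Real.rpow_le_rpow_of_exponent_le hX1 (by norm_num)
            _ = X := Real.rpow_one X
  have hlA : 0 < Real.log X ^ A := by positivity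
  have hf1 : C ^ 2 * (X ^ (3 / 4 : ℝ) * (C₁ * Real.log X ^ B₁)) ≤ 1 / 2 * (X / Real.log X ^ A) := by
    rw [← mul_div_assoc, le_div_iff₀ hlA]
    have h1 := hX₁ X e1
    have h2 : X = X ^ (3 / 4 : ℝ) * X ^ (1 / 4 : ℝ) := by
      rw [← Real.rpow_add hX0]
      norm_num
    calc C ^ 2 * (X ^ (3 / 4 : ℝ) * (C₁ * Real.log X ^ B₁)) * Real.log X ^ A
        = 1 / 2 * (X ^ (3 / 4 : ℝ) * (2 * (C ^ 2 * C₁) * Real.log X ^ (B₁ + A))) := by
          rw [pow_add]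
          ring
      _ ≤ 1 / 2 * (X ^ (3 / 4 : ℝ) * X ^ (1 / 4 : ℝ)) := by gcongr
      _ = 1 / 2 * X := by rw [← h2]
  have hNX : (NX X : ℝ) ≤ 4 * X := by
    unfold NX
    have := Nat.ceil_lt_add_one (show (0 : ℝ) ≤ 3 * X by linarith)
    linarith
  have hf2 : (NX X : ℝ) * (C' * X ^ (-δ)) * (C₂ * Real.log z ^ B₂) ≤
      1 / 2 * (X / Real.log X ^ A) := by
    rw [← mul_div_assoc (1 / 2 : ℝ), le_div_iff₀ hlA]
    have h1 := hX₂ X e2
    rw [hlz, mul_pow]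
    have h3 : X ^ (-δ) * X ^ δ = 1 := by
      rw [← Real.rpow_add hX0]
      simp
    have h4 : 0 < X ^ (-δ) := by positivity
    have h5 : 0 ≤ Real.log X := by linarith
    calc (NX X : ℝ) * (C' * X ^ (-δ)) * (C₂ * (δ ^ B₂ * Real.log X ^ B₂)) * Real.log X ^ A
        ≤ (4 * X) * (C' * X ^ (-δ)) * (C₂ * (δ ^ B₂ * Real.log X ^ B₂)) * Real.log X ^ A := by
          gcongr
      _ = 1 / 2 * X * X ^ (-δ) * (8 * C' * C₂ * δ ^ B₂ * Real.log X ^ (B₂ + A)) := by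
          rw [pow_add]
          ring
      _ ≤ 1 / 2 * X * X ^ (-δ) * X ^ δ := by gcongr
      _ = 1 / 2 * X * (X ^ (-δ) * X ^ δ) := by ring
      _ = 1 / 2 * X := by rw [h3, mul_one]
  have hA1 : ∑ s ∈ Sd, ∑ d ∈ Bx K z Y, ∑ e ∈ Bx K z Y,
      (if Pco d e then |l d| * |l e| * (((K : ℝ) + 1) ^ s.card * 1) else 0) ≤
      1 / 2 * (X / Real.log X ^ A) :=
    hfirst.trans ((mul_le_mul_of_nonneg_left hsum (sq_nonneg C)).trans hf1)
  have hA2 : (NX X : ℝ) * (C' * X ^ (-δ)) * ∑ s ∈ Sd, ∏ p ∈ s, (nu h p : ℝ) / p ≤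
      1 / 2 * (X / Real.log X ^ A) :=
    (mul_le_mul_of_nonneg_left hS2 (by positivity)).trans hf2
  linarith

end Pool.Agent.H78.MTP
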