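import Pool.Agent.H31.MP.Basic

/-!
The product measure.
-/

set_option autoImplicit false

open Finset Real ArithmeticFunction
open scoped Nat

namespace Pool.Agent.H78.MTP

open Pool.Agent.H31.MP

theorem memRS {z Y : ℝ} {a : ℕ} (h : a ∈ RS z Y) : 1 ≤ a := by
  classical
  unfold RS at h
  exact (mem_Icc.1 (mem_filter.1 h).1).1

theorem oneRS {z Y : ℝ} (hY : 1 < Y) : 1 ∈ RS z Y := by
  classical
  unfold RS
  refine mem_filter.2 ⟨mem_Icc.2 ⟨le_rfl, Nat.le_floor (by exact_mod_cast hY.le)⟩, squarefree_one,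
    fun p hp hd => ?_⟩
  exact (hp.one_lt.ne' (Nat.dvd_one.1 hd)).elim

theorem totpos {z Y : ℝ} {a : ℕ} (h : a ∈ RS z Y) : 0 < (a.totient : ℝ) := by
  exact_mod_cast Nat.totient_pos.2 (memRS h)

theorem pb_one (K : ℕ) (z Y : ℝ) (g : ℕ → ℝ) :
    ∑ r ∈ Bx K z Y, yg Y g r ^ 2 / ∏ i, ((r i).totient : ℝ) ≤
      (∑ a ∈ RS z Y, g a ^ 2 / (a.totient : ℝ)) ^ K := by
  calc ∑ r ∈ Bx K z Y, yg Y g r ^ 2 / ∏ i, ((r i).totient : ℝ)
      ≤ ∑ r ∈ Bx K z Y, ∏ i, (g (r i) ^ 2 / ((r i).totient : ℝ)) := by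
        refine Finset.sum_le_sum fun r hr => ?_
        rw [Finset.prod_div_distrib, Finset.prod_pow]
        refine div_le_div_of_nonneg_right ?_ (Finset.prod_nonneg fun i _ => Nat.cast_nonneg _)
        unfold yg
        split_ifs
        · exact le_rfl
        · rw [zero_pow two_ne_zero]
          exact sq_nonneg _
    _ = _ := by
        unfold Bx
        rw [← Finset.prod_univ_sum (fun _ : Fin K => RS z Y)
          (fun _ a => g a ^ 2 / (a.totient : ℝ))]
        rw [Finset.prod_const, Finset.card_univ, Fintype.card_fin]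

theorem box_eq {K : ℕ} {z Y : ℝ} (hY : 1 < Y) (i₀ : Fin K) :
    (Bx K z Y).filter (fun r => r i₀ = 1) =
      Fintype.piFinset (fun i => if i = i₀ then {1} else RS z Y) := by
  ext r
  unfold Bx
  rw [mem_filter, Fintype.mem_piFinset, Fintype.mem_piFinset]
  constructor
  · rintro ⟨h1, h2⟩ i
    split_ifs with h
    · rw [h, h2]
      exact mem_singleton_self _
    · exact h1 i
  · intro h
    refine ⟨fun i => ?_, ?_⟩
    · have := h i
      split_ifs at this with h'
      · rw [mem_singleton.1 this]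
        exact oneRS hY
      · exact this
    · have := h i₀
      rw [if_pos rfl] at this
      exact mem_singleton.1 this

theorem pf_PB : T_PB := by
  classical
  intro K z Y g hK hY hg0 hgs hL
  refine ⟨pb_one K z Y g, fun i₀ => ?_⟩
  set Z := ∑ a ∈ RS z Y, g a ^ 2 / (a.totient : ℝ) with hZ
  set S := ∑ a ∈ RS z Y, g a / (a.totient : ℝ) with hS
  set L := ∑ a ∈ RS z Y, Real.log a * g a ^ 2 / (a.totient : ℝ) with hLd
  have hZ0 : 0 ≤ Z := Finset.sum_nonneg fun a ha => div_nonneg (sq_nonneg _) (totpos ha).le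
  have hlY : 0 < Real.log Y := Real.log_pos hY
  have hKr : (0 : ℝ) < K := by exact_mod_cast hK
  -- the weight
  let w : Fin K → ℕ → ℝ := fun i a => if i = i₀ then 1 else g a ^ 2 / (a.totient : ℝ)
  let t : Fin K → Finset ℕ := fun i => if i = i₀ then {1} else RS z Y
  set E : Finset (Fin K) := univ.erase i₀ with hE
  have hcE : E.card = K - 1 := by
    rw [hE, Finset.card_erase_of_mem (Finset.mem_univ _), Finset.card_univ, Fintype.card_fin]
  have hW0 : ∀ r ∈ Fintype.piFinset t, 0 ≤ ∏ i, w i (r i) := by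
    intro r hr
    refine Finset.prod_nonneg fun i _ => ?_
    simp only [w]
    split_ifs
    · exact zero_le_one
    · positivity
  have hbox : (Bx K z Y).filter (fun r => r i₀ = 1) = Fintype.piFinset t := box_eq hY i₀
  have hr1 : ∀ r ∈ Fintype.piFinset t, ∀ i, r i ∈ RS z Y := by
    intro r hr i
    rw [← hbox] at hr
    have := (mem_filter.1 hr).1
    unfold Bx at this
    exact Fintype.mem_piFinset.1 this i
  have hr0 : ∀ r ∈ Fintype.piFinset t, r i₀ = 1 := by
    intro r hr
    rw [← hbox] at hr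
    exact (mem_filter.1 hr).2
  -- total mass
  have htot : ∑ r ∈ Fintype.piFinset t, ∏ i, w i (r i) = Z ^ (K - 1) := by
    rw [← Finset.prod_univ_sum t w, ← Finset.mul_prod_erase univ _ (Finset.mem_univ i₀)]
    have h1 : ∑ a ∈ t i₀, w i₀ a = 1 := by
      simp only [t, w, if_true]
      rw [Finset.sum_singleton]
    rw [h1, one_mul, ← hcE, ← Finset.prod_const]
    refine Finset.prod_congr rfl fun i hi => ?_
    have hi' : i ≠ i₀ := (Finset.mem_erase.1 hi).1
    simp only [t, w, if_neg hi', hZ]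
  -- first moment
  have hmom : ∀ j ∈ E, (K : ℝ) * ∑ r ∈ Fintype.piFinset t, Real.log (r j) * ∏ i, w i (r i) ≤
      1 / 4 * Real.log Y * Z ^ (K - 1) := by
    intro j hj
    have hj' : j ≠ i₀ := (Finset.mem_erase.1 hj).1
    let f : Fin K → ℕ → ℝ := fun i a => (if i = j then Real.log a else 1) * w i a
    have h1 : ∀ r : Fin K → ℕ, Real.log (r j) * ∏ i, w i (r i) = ∏ i, f i (r i) := by
      intro r
      simp only [f]
      rw [Finset.prod_mul_distrib, Finset.prod_ite_eq' univ j (fun i => Real.log (r i))]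
      simp
    simp only [h1]
    rw [← Finset.prod_univ_sum t f, ← Finset.mul_prod_erase univ _ (Finset.mem_univ i₀)]
    have h2 : ∑ a ∈ t i₀, f i₀ a = 1 := by
      simp only [t, f, w, if_true]
      rw [Finset.sum_singleton, if_neg (Ne.symm hj'), one_mul]
    rw [h2, one_mul, ← hE, ← Finset.mul_prod_erase E _ hj]
    have h3 : ∑ a ∈ t j, f j a = L := by
      simp only [t, f, w, if_true, if_neg hj', hLd]
      refine Finset.sum_congr rfl fun a _ => ?_
      ring
    have h4 : ∏ i ∈ E.erase j, ∑ a ∈ t i, f i a = Z ^ (K - 2) := by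
      have hc : (E.erase j).card = K - 2 := by
        rw [Finset.card_erase_of_mem hj, hcE]
        omega
      rw [← hc, ← Finset.prod_const]
      refine Finset.prod_congr rfl fun i hi => ?_
      have hi1 : i ≠ j := (Finset.mem_erase.1 hi).1
      have hi2 : i ≠ i₀ := (Finset.mem_erase.1 (Finset.mem_erase.1 hi).2).1
      simp only [t, f, w, if_neg hi1, if_neg hi2, one_mul, hZ]
    rw [h3, h4]
    have hK2 : 2 ≤ K := by
      have h5 : 0 < E.card := Finset.card_pos.2 ⟨j, hj⟩
      omega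
    have h6 : Z ^ (K - 1) = Z * Z ^ (K - 2) := by
      rw [← pow_succ']
      congr 1
      omega
    rw [h6]
    have h7 : 0 ≤ Z ^ (K - 2) := pow_nonneg hZ0 _
    calc (K : ℝ) * (L * Z ^ (K - 2)) = ((K : ℝ) * L) * Z ^ (K - 2) := by ring
      _ ≤ (1 / 4 * Real.log Y * Z) * Z ^ (K - 2) := mul_le_mul_of_nonneg_right hL h7
      _ = 1 / 4 * Real.log Y * (Z * Z ^ (K - 2)) := by ring
  -- the part with a large product
  have hlogP : ∀ r ∈ Fintype.piFinset t,
      Real.log ((∏ i, r i : ℕ) : ℝ) = ∑ j ∈ E, Real.log (r j) := by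
    intro r hr
    push_cast
    rw [Real.log_prod (fun i _ => by
      have := memRS (hr1 r hr i)
      positivity), ← Finset.add_sum_erase univ _ (Finset.mem_univ i₀), hr0 r hr]
    simp [hE]
  have hbig : ∑ r ∈ (Fintype.piFinset t).filter (fun r => ¬ ((∏ i, r i : ℕ) : ℝ) ≤ Y ^ (1 / 2 : ℝ)),
      ∏ i, w i (r i) ≤ 1 / 2 * Z ^ (K - 1) := by
    have h1 : ∑ r ∈ (Fintype.piFinset t).filter
        (fun r => ¬ ((∏ i, r i : ℕ) : ℝ) ≤ Y ^ (1 / 2 : ℝ)), ∏ i, w i (r i) ≤
        ∑ r ∈ Fintype.piFinset t, ∑ j ∈ E, 2 / Real.log Y *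
          (Real.log (r j) * ∏ i, w i (r i)) := by
      refine (Finset.sum_le_sum (g := fun r => ∑ j ∈ E, 2 / Real.log Y *
          (Real.log (r j) * ∏ i, w i (r i))) ?_).trans
        (Finset.sum_le_sum_of_subset_of_nonneg (Finset.filter_subset _ _) ?_)
      · intro r hr
        obtain ⟨hr', hb⟩ := mem_filter.1 hr
        rw [not_le] at hb
        have h2 : 1 / 2 * Real.log Y ≤ Real.log ((∏ i, r i : ℕ) : ℝ) := by
          rw [← Real.log_rpow (by linarith)]
          exact Real.log_le_log (Real.rpow_pos_of_pos (by linarith) _) hb.le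
        rw [← Finset.mul_sum, ← Finset.sum_mul, ← hlogP r hr', ← mul_assoc]
        refine le_mul_of_one_le_left (hW0 r hr') ?_
        rw [div_mul_eq_mul_div, le_div_iff₀ hlY]
        linarith
      · intro r hr _
        refine Finset.sum_nonneg fun j _ => ?_
        refine mul_nonneg (by positivity) (mul_nonneg (Real.log_natCast_nonneg _) (hW0 r hr))
    refine h1.trans ?_
    rw [Finset.sum_comm]
    simp only [← Finset.mul_sum]
    have h3 : ∑ j ∈ E, ∑ r ∈ Fintype.piFinset t, Real.log (r j) * ∏ i, w i (r i) ≤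
        ∑ j ∈ E, 1 / (K : ℝ) * (1 / 4 * Real.log Y * Z ^ (K - 1)) := by
      refine Finset.sum_le_sum fun j hj => ?_
      rw [one_div, ← div_eq_inv_mul, le_div_iff₀ hKr, mul_comm]
      exact hmom j hj
    rw [Finset.sum_const, hcE, nsmul_eq_mul] at h3
    have h4 : ((K - 1 : ℕ) : ℝ) ≤ K := by exact_mod_cast Nat.sub_le _ _
    have h5 : 0 ≤ Z ^ (K - 1) := pow_nonneg hZ0 _
    calc 2 / Real.log Y * ∑ j ∈ E, ∑ r ∈ Fintype.piFinset t, Real.log (r j) * ∏ i, w i (r i)
        ≤ 2 / Real.log Y * (((K - 1 : ℕ) : ℝ) * (1 / (K : ℝ) *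
            (1 / 4 * Real.log Y * Z ^ (K - 1)))) :=
          mul_le_mul_of_nonneg_left h3 (by positivity)
      _ ≤ 2 / Real.log Y * ((K : ℝ) * (1 / (K : ℝ) *
            (1 / 4 * Real.log Y * Z ^ (K - 1)))) := by gcongr
      _ = 1 / 2 * Z ^ (K - 1) := by
          field_simp
          ring
  have hsmall : 1 / 2 * Z ^ (K - 1) ≤ ∑ r ∈ (Fintype.piFinset t).filter
      (fun r => ((∏ i, r i : ℕ) : ℝ) ≤ Y ^ (1 / 2 : ℝ)), ∏ i, w i (r i) := by
    have h1 := Finset.sum_filter_add_sum_filter_not (Fintype.piFinset t)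
      (fun r => ((∏ i, r i : ℕ) : ℝ) ≤ Y ^ (1 / 2 : ℝ)) (fun r => ∏ i, w i (r i))
    rw [htot] at h1
    linarith
  -- the inner sum
  have hin : ∀ r ∈ Fintype.piFinset t, ((∏ i, r i : ℕ) : ℝ) ≤ Y ^ (1 / 2 : ℝ) →
      (∑ a ∈ RS z Y, yg Y g (Function.update r i₀ a) / (a.totient : ℝ)) =
        S * ∏ i ∈ E, g (r i) := by
    intro r hr hP
    rw [hS, Finset.sum_mul]
    refine Finset.sum_congr rfl fun a ha => ?_
    have h1 : ∏ i, g (Function.update r i₀ a i) = g a * ∏ i ∈ E, g (r i) := by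
      rw [← Finset.mul_prod_erase univ _ (Finset.mem_univ i₀), Function.update_self]
      congr 1
      refine Finset.prod_congr rfl fun i hi => ?_
      rw [Function.update_of_ne (Finset.mem_erase.1 hi).1]
    have h2 : yg Y g (Function.update r i₀ a) = g a * ∏ i ∈ E, g (r i) := by
      unfold yg
      rw [h1]
      split_ifs with h
      · rfl
      · by_cases hga : g a = 0
        · rw [hga, zero_mul]
        · exfalso
          apply h
          have ha2 : (a : ℝ) ≤ Y ^ (1 / 2 : ℝ) := by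
            by_contra hc
            exact hga (hgs a (not_le.1 hc))
          have h3 : ∏ i, Function.update r i₀ a i = a * ∏ i, r i := by
            rw [← Finset.mul_prod_erase univ _ (Finset.mem_univ i₀), Function.update_self,
              ← Finset.mul_prod_erase univ (fun i => r i) (Finset.mem_univ i₀), hr0 r hr, one_mul]
            congr 1
            refine Finset.prod_congr rfl fun i hi => ?_
            rw [Function.update_of_ne (Finset.mem_erase.1 hi).1]
          rw [h3]
          push_cast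
          have h4 : Y = Y ^ (1 / 2 : ℝ) * Y ^ (1 / 2 : ℝ) := by
            rw [← Real.rpow_add (by linarith)]
            norm_num
          push_cast at hP
          calc (a : ℝ) * ∏ i, (r i : ℝ) ≤ Y ^ (1 / 2 : ℝ) * Y ^ (1 / 2 : ℝ) :=
                mul_le_mul ha2 hP (Finset.prod_nonneg fun i _ => Nat.cast_nonneg _) (by positivity)
            _ = Y := h4.symm
    rw [h2]
    ring
  rw [hbox]
  have hS2 : 0 ≤ S ^ 2 := sq_nonneg _
  calc 1 / 2 * S ^ 2 * Z ^ (K - 1) = S ^ 2 * (1 / 2 * Z ^ (K - 1)) := by ring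
    _ ≤ S ^ 2 * ∑ r ∈ (Fintype.piFinset t).filter
      (fun r => ((∏ i, r i : ℕ) : ℝ) ≤ Y ^ (1 / 2 : ℝ)), ∏ i, w i (r i) :=
        mul_le_mul_of_nonneg_left hsmall hS2
    _ = ∑ r ∈ (Fintype.piFinset t).filter
      (fun r => ((∏ i, r i : ℕ) : ℝ) ≤ Y ^ (1 / 2 : ℝ)),
        (∑ a ∈ RS z Y, yg Y g (Function.update r i₀ a) / (a.totient : ℝ)) ^ 2 /
          ∏ i, ((r i).totient : ℝ) := by
        rw [Finset.mul_sum]
        refine Finset.sum_congr rfl fun r hr => ?_
        obtain ⟨hr', hP⟩ := mem_filter.1 hr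
        rw [hin r hr' hP, ← Finset.mul_prod_erase univ (fun i => w i (r i)) (Finset.mem_univ i₀),
          ← Finset.mul_prod_erase univ (fun i => ((r i).totient : ℝ)) (Finset.mem_univ i₀),
          hr0 r hr', ← hE]
        have h1 : ∏ i ∈ E, w i (r i) = (∏ i ∈ E, g (r i)) ^ 2 / ∏ i ∈ E, ((r i).totient : ℝ) := by
          rw [← Finset.prod_pow, ← Finset.prod_div_distrib]
          refine Finset.prod_congr rfl fun i hi => ?_
          simp only [w, if_neg (Finset.mem_erase.1 hi).1]
        rw [h1]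
        simp only [w, if_true, Nat.totient_one, Nat.cast_one, one_mul]
        ring
    _ ≤ _ := by
        refine Finset.sum_le_sum_of_subset_of_nonneg (Finset.filter_subset _ _) ?_
        intro r _ _
        exact div_nonneg (sq_nonneg _) (Finset.prod_nonneg fun i _ => Nat.cast_nonneg _)

end Pool.Agent.H78.MTP
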